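import Mathlib

/-!
# Sorting pattern of one-dimensional heavy-ball cycles: a disproof of Q1

For every `0 < mu < L` and every `K ≥ 5`, `K ≠ 6`, there are a step size `gam > 0` and a threshold
`b0 < 1` such that for every momentum parameter `b0 < bet ≤ 1` the heavy-ball method has a
`K`-cycle (with `K` distinct points) on some function of the class, but no `K`-cycle with the
pattern `rho` on any function of the class.
-/

open Real

namespace Pool.Agent.Results.MP_8c4df5_an.StarCycles

/-- The class `F_{mu,L}`: differentiable functions `f : ℝ → ℝ` that are `mu`-strongly convex and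
`L`-smooth (the derivative is `L`-Lipschitz). -/
def InClass (mu L : ℝ) (f : ℝ → ℝ) : Prop :=
  Differentiable ℝ f ∧ StrongConvexOn Set.univ mu f ∧
    ∀ x y : ℝ, |deriv f x - deriv f y| ≤ L * |x - y|

/-- `x = (x_0, ..., x_{K-1})`, indexed by the integers modulo `K`, is a `K`-cycle of the heavy-ball
method with step size `gam` and momentum `bet` on `f`: not all entries are equal, and the
recursion holds with indices read modulo `K`. -/
def IsCycle (K : ℕ) (gam bet : ℝ) (f : ℝ → ℝ) (x : ZMod K → ℝ) : Prop :=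
  (∃ i j, x i ≠ x j) ∧
    ∀ i : ZMod K, x (i + 1) = x i - gam * deriv f (x i) + bet * (x i - x (i - 1))

/-- The map `rho` of the problem on `{0, ..., K-1}`. -/
def rho (K j : ℕ) : ℕ :=
  if j = 0 then 0 else if j ≤ K / 2 then 2 * j - 1 else 2 * (K - j)

/-- `x` has pattern `rho`. The representative of `i : ZMod K` in `{0, ..., K-1}` is `i.val`. -/
def HasPattern (K : ℕ) (x : ZMod K → ℝ) : Prop :=
  ∀ i j : ZMod K, rho K i.val < rho K j.val → x i ≤ x j

/-! ## Functions of the class -/

lemma deriv_mono_of_class {mu L : ℝ} {f : ℝ → ℝ} (hf : InClass mu L f) {a b : ℝ} (hab : a ≤ b) :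
    mu * (b - a) ≤ deriv f b - deriv f a := by
  obtain ⟨hd, hs, -⟩ := hf
  have hc := strongConvexOn_iff_convex.1 hs
  have hdiff : ∀ x : ℝ, HasDerivAt (fun x : ℝ => f x - mu / 2 * ‖x‖ ^ 2) (deriv f x - mu * x) x := by
    intro x
    have h1 : HasDerivAt (fun x : ℝ => mu / 2 * ‖x‖ ^ 2) (mu * x) x := by
      have h2 : HasDerivAt (fun x : ℝ => mu / 2 * x ^ 2) (mu / 2 * (2 * x ^ 1 * 1)) x := by
        simpa using ((hasDerivAt_id x).pow 2).const_mul (mu / 2)
      have h3 : (fun x : ℝ => mu / 2 * ‖x‖ ^ 2) = fun x : ℝ => mu / 2 * x ^ 2 := by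
        funext y
        rw [Real.norm_eq_abs, sq_abs]
      rw [h3]
      convert h2 using 1
      ring
    exact (hd x).hasDerivAt.sub h1
  have hm := hc.monotoneOn_deriv (fun x _ => (hdiff x).differentiableAt)
  have h4 := hm (Set.mem_univ a) (Set.mem_univ b) hab
  rw [(hdiff a).deriv, (hdiff b).deriv] at h4
  linarith

/-! ## The trigonometric test sequences -/

lemma cos_mod {K : ℕ} {th : ℝ} {j : ℕ} (hth : th * K = j * (2 * π)) (m : ℕ) (phi : ℝ) :
    cos (th * ((m % K : ℕ) : ℝ) + phi) = cos (th * (m : ℝ) + phi) := by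
  have h1 : (m : ℝ) = K * ((m / K : ℕ) : ℝ) + ((m % K : ℕ) : ℝ) := by
    exact_mod_cast (Nat.div_add_mod m K).symm
  have h2 : th * (m : ℝ) + phi = (th * ((m % K : ℕ) : ℝ) + phi) + ((m / K * j : ℕ) : ℝ) * (2 * π) := by
    rw [h1]
    push_cast
    have : th * (K * ((m / K : ℕ) : ℝ)) = (th * K) * ((m / K : ℕ) : ℝ) := by ring
    rw [mul_add, this, hth]
    ring
  rw [h2, Real.cos_add_nat_mul_two_pi]

lemma cos_succ {K : ℕ} (hK : 2 ≤ K) {th : ℝ} {j : ℕ} (hth : th * K = j * (2 * π)) (t : ZMod K)
    (phi : ℝ) : cos (th * ((t + 1).val : ℝ) + phi) = cos (th * (t.val : ℝ) + phi + th) := by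
  have : NeZero K := ⟨by omega⟩
  rw [ZMod.val_add, ZMod.val_one'' (by omega), cos_mod hth]
  congr 1
  push_cast
  ring

lemma cos_pred {K : ℕ} (hK : 2 ≤ K) {th : ℝ} {j : ℕ} (hth : th * K = j * (2 * π)) (t : ZMod K)
    (phi : ℝ) : cos (th * ((t - 1).val : ℝ) + phi) = cos (th * (t.val : ℝ) + phi - th) := by
  have h := cos_succ hK hth (t - 1) (phi - th)
  rw [sub_add_cancel] at h
  rw [show th * (t.val : ℝ) + phi - th = th * (t.val : ℝ) + (phi - th) by ring, h]
  congr 1
  ring

lemma sum_shift {K : ℕ} [NeZero K] (F : ZMod K → ℝ) : ∑ t, F (t + 1) = ∑ t, F t :=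
  Equiv.sum_comp (Equiv.addRight (1 : ZMod K)) F

lemma sum_cos_eq_zero {K : ℕ} [NeZero K] (hK : 2 ≤ K) (phi : ℝ) :
    ∑ t : ZMod K, cos (2 * π / K * (t.val : ℝ) + phi) = 0 := by
  have hK0 : (K : ℝ) ≠ 0 := by
    exact_mod_cast (by omega : K ≠ 0)
  have hth : 2 * π / K * K = (1 : ℕ) * (2 * π) := by
    field_simp
    simp
  set th : ℝ := 2 * π / K with hthdef
  have h1 : ∑ t : ZMod K, cos (th * (t.val : ℝ) + phi + th) =
      ∑ t : ZMod K, cos (th * (t.val : ℝ) + phi) := by
    rw [← sum_shift fun t : ZMod K => cos (th * (t.val : ℝ) + phi)]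
    exact Finset.sum_congr rfl fun t _ => (cos_succ hK hth t phi).symm
  have h2 : ∑ t : ZMod K, cos (th * (t.val : ℝ) + phi - th) =
      ∑ t : ZMod K, cos (th * (t.val : ℝ) + phi) := by
    rw [← sum_shift fun t : ZMod K => cos (th * (t.val : ℝ) + phi - th)]
    refine Finset.sum_congr rfl fun t _ => ?_
    have h := cos_pred hK hth (t + 1) phi
    rw [add_sub_cancel_right] at h
    exact h.symm
  have h3 : ∑ t : ZMod K, (cos (th * (t.val : ℝ) + phi + th) + cos (th * (t.val : ℝ) + phi - th)) =
      ∑ t : ZMod K, 2 * cos th * cos (th * (t.val : ℝ) + phi) := by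
    refine Finset.sum_congr rfl fun t _ => ?_
    rw [cos_add, cos_sub]
    ring
  rw [Finset.sum_add_distrib, h1, h2, ← Finset.mul_sum] at h3
  have hth0 : 0 < th := by positivity
  have hthpi : th ≤ π := by
    rw [hthdef, div_le_iff₀ (by positivity)]
    have : (2 : ℝ) ≤ K := by exact_mod_cast hK
    nlinarith [Real.pi_pos]
  have hc : cos th < 1 := by
    have := Real.cos_lt_cos_of_nonneg_of_le_pi (le_refl (0 : ℝ)) hthpi hth0
    simpa using this
  have h4 : (1 - cos th) * ∑ t : ZMod K, cos (th * (t.val : ℝ) + phi) = 0 := by linarith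
  rcases mul_eq_zero.1 h4 with h5 | h5
  · linarith
  · exact h5

/-! ## The pattern `rho` and the test sequence `-cos (2 pi t / K)` -/

/-- Distance of `t` to `0` in the cycle `{0, ..., K-1}`. -/
def dist0 (K t : ℕ) : ℕ := min t (K - t)

lemma rho_inj {K a b : ℕ} (ha : a < K) (hb : b < K) (h : rho K a = rho K b) : a = b := by
  unfold rho at h
  split_ifs at h <;> omega

lemma dist0_le_of_rho_lt {K a b : ℕ} (ha : a < K) (hb : b < K) (h : rho K a < rho K b) :
    dist0 K a ≤ dist0 K b := by
  unfold rho at h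
  unfold dist0
  split_ifs at h <;> omega

lemma cos_dist0 {K t : ℕ} (ht : t < K) :
    cos (2 * π / K * (t : ℝ)) = cos (2 * π / K * (dist0 K t : ℝ)) := by
  have hK0 : (K : ℝ) ≠ 0 := by
    exact_mod_cast (by omega : K ≠ 0)
  unfold dist0
  rcases le_total t (K - t) with h | h
  · rw [min_eq_left h]
  · rw [min_eq_right h, Nat.cast_sub ht.le]
    have h1 : 2 * π / K * ((K : ℝ) - t) = 2 * π - 2 * π / K * t := by
      field_simp
    rw [h1, Real.cos_two_pi_sub]

lemma cos_antitone_dist0 {K a b : ℕ} (ha : a < K) (hb : b < K) (h : dist0 K a ≤ dist0 K b) :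
    cos (2 * π / K * (b : ℝ)) ≤ cos (2 * π / K * (a : ℝ)) := by
  rw [cos_dist0 ha, cos_dist0 hb]
  have hK0 : (0 : ℝ) < K := by
    exact_mod_cast (by omega : 0 < K)
  apply Real.cos_le_cos_of_nonneg_of_le_pi
  · positivity
  · have h1 : (2 : ℝ) * (dist0 K b : ℝ) ≤ K := by
      have : 2 * dist0 K b ≤ K := by unfold dist0; omega
      exact_mod_cast this
    rw [div_mul_eq_mul_div, div_le_iff₀ hK0]
    nlinarith [Real.pi_pos]
  · have : (dist0 K a : ℝ) ≤ dist0 K b := by exact_mod_cast h
    have h2 : 0 ≤ 2 * π / K := by positivity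
    exact mul_le_mul_of_nonneg_left this h2

/-- No cycle with pattern `rho`, if `bet ≤ 1` and all curvatures are larger than the one of the
quadratic whose heavy-ball orbits turn by the angle `2 pi / K`. -/
lemma no_pattern {K : ℕ} (hK : 3 ≤ K) {mu L gam bet : ℝ} (hgam : 0 < gam) (hbet : bet ≤ 1)
    (hlow : (1 + bet) * (1 - cos (2 * π / K)) < gam * mu) {f : ℝ → ℝ} {x : ZMod K → ℝ}
    (hf : InClass mu L f) (hx : IsCycle K gam bet f x) : ¬ HasPattern K x := by
  intro hpat
  have : NeZero K := ⟨by omega⟩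
  have hK0 : (0 : ℝ) < K := by exact_mod_cast (by omega : 0 < K)
  have hth : 2 * π / K * K = (1 : ℕ) * (2 * π) := by
    field_simp
    simp
  set th : ℝ := 2 * π / K with hthdef
  set u : ZMod K → ℝ := fun t => -cos (th * (t.val : ℝ)) with hu
  set s : ZMod K → ℝ := fun t => sin (th * (t.val : ℝ)) with hs
  set g : ZMod K → ℝ := fun t => deriv f (x t) with hg
  have hK2 : 2 ≤ K := by omega
  have hu1 : ∀ t, u (t + 1) = cos th * u t + sin th * s t := by
    intro t
    have h := cos_succ hK2 hth t 0
    simp only [add_zero] at h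
    simp only [hu, hs, h, cos_add]
    ring
  have hu2 : ∀ t, u (t - 1) = cos th * u t - sin th * s t := by
    intro t
    have h := cos_pred hK2 hth t 0
    simp only [add_zero] at h
    simp only [hu, hs, h, cos_sub]
    ring
  have hsu : ∑ t, u t = 0 := by
    have h := sum_cos_eq_zero hK2 0
    simp only [add_zero] at h
    simp only [hu, Finset.sum_neg_distrib]
    rw [← hthdef] at h
    rw [h, neg_zero]
  -- the recursion tested against `u`
  set c : ℝ := (1 + bet) * (1 - cos th) with hc
  have hrec : ∀ t, gam * g t = (1 + bet) * x t - bet * x (t - 1) - x (t + 1) := by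
    intro t
    have h := hx.2 t
    simp only [hg]
    linarith
  have hid : ∑ t, (gam * g t - c * x t) * u t = (1 - bet) * sin th * ∑ t, x t * s t := by
    have e1 : ∑ t, x (t - 1) * u t = ∑ t, x t * u (t + 1) := by
      rw [← sum_shift fun t : ZMod K => x (t - 1) * u t]
      simp only [add_sub_cancel_right]
    have e2 : ∑ t, x (t + 1) * u t = ∑ t, x t * u (t - 1) := by
      rw [← sum_shift fun t : ZMod K => x t * u (t - 1)]
      simp only [add_sub_cancel_right]
    have e3 : ∑ t, (gam * g t - c * x t) * u t =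
        ∑ t, ((1 + bet) - c) * (x t * u t) - bet * ∑ t, x (t - 1) * u t - ∑ t, x (t + 1) * u t := by
      rw [Finset.mul_sum, ← Finset.sum_sub_distrib, ← Finset.sum_sub_distrib]
      refine Finset.sum_congr rfl fun t _ => ?_
      rw [hrec t]
      ring
    rw [e3, e1, e2, Finset.mul_sum, ← Finset.sum_sub_distrib, ← Finset.sum_sub_distrib,
      Finset.mul_sum]
    refine Finset.sum_congr rfl fun t _ => ?_
    rw [hu1 t, hu2 t, hc]
    ring
  -- sign of the sine sum
  have hthpos : 0 < th := by positivity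
  have hsin : 0 ≤ sin th := by
    apply Real.sin_nonneg_of_nonneg_of_le_pi hthpos.le
    rw [hthdef, div_le_iff₀ hK0]
    have : (3 : ℝ) ≤ K := by exact_mod_cast hK
    nlinarith [Real.pi_pos]
  have hsneg : ∀ t : ZMod K, s (-t) = - s t := by
    intro t
    simp only [hs]
    rw [ZMod.neg_val]
    split_ifs with h0
    · rw [h0]
      simp
    · rw [Nat.cast_sub (ZMod.val_lt t).le]
      have h1 : th * ((K : ℝ) - (t.val : ℝ)) = 2 * π - th * (t.val : ℝ) := by
        rw [hthdef]
        field_simp
      rw [h1, Real.sin_two_pi_sub]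
  have hterm : ∀ t : ZMod K, (x t - x (-t)) * s t ≤ 0 := by
    intro t
    have htK := ZMod.val_lt t
    rcases lt_trichotomy (2 * t.val) K with h | h | h
    · by_cases h0 : t = 0
      · simp [h0]
      · have hv : t.val ≠ 0 := by
          intro h'
          exact h0 ((ZMod.val_eq_zero t).1 h')
        have h1 : x t ≤ x (-t) := by
          apply hpat
          rw [ZMod.neg_val, if_neg h0]
          unfold rho
          split_ifs <;> omega
        have h2 : 0 ≤ s t := by
          apply Real.sin_nonneg_of_nonneg_of_le_pi (by positivity)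
          have h3 : (2 : ℝ) * (t.val : ℝ) ≤ K := by exact_mod_cast h.le
          rw [hthdef, div_mul_eq_mul_div, div_le_iff₀ hK0]
          nlinarith [Real.pi_pos]
        exact mul_nonpos_of_nonpos_of_nonneg (by linarith) h2
    · have h0 : t ≠ 0 := by
        rintro rfl
        simp at h
        omega
      have h1 : -t = t := by
        apply ZMod.val_injective
        rw [ZMod.neg_val, if_neg h0]
        omega
      rw [h1]
      simp
    · have h0 : t ≠ 0 := by
        rintro rfl
        simp at h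
      have h1 : x (-t) ≤ x t := by
        apply hpat
        rw [ZMod.neg_val, if_neg h0]
        unfold rho
        split_ifs <;> omega
      have h2 : s t ≤ 0 := by
        have h4 : s t = - s (-t) := by rw [hsneg, neg_neg]
        have h5 : 0 ≤ s (-t) := by
          simp only [hs]
          rw [ZMod.neg_val, if_neg h0]
          apply Real.sin_nonneg_of_nonneg_of_le_pi (by positivity)
          have h3 : (2 : ℝ) * ((K - t.val : ℕ) : ℝ) ≤ K := by
            exact_mod_cast (by omega : 2 * (K - t.val) ≤ K)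
          rw [hthdef, div_mul_eq_mul_div, div_le_iff₀ hK0]
          nlinarith [Real.pi_pos]
        linarith
      exact mul_nonpos_of_nonneg_of_nonpos (by linarith) h2
  have hxs : ∑ t, x t * s t ≤ 0 := by
    have e1 : ∑ t, x t * s t = ∑ t, x (-t) * s (-t) :=
      (Equiv.sum_comp (Equiv.neg (ZMod K)) fun t => x t * s t).symm
    have e2 : 2 * ∑ t, x t * s t = ∑ t, (x t - x (-t)) * s t := by
      have : ∑ t, (x t - x (-t)) * s t = ∑ t, x t * s t + ∑ t, x (-t) * s (-t) := by
        rw [← Finset.sum_add_distrib]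
        refine Finset.sum_congr rfl fun t _ => ?_
        rw [hsneg]
        ring
      rw [this, ← e1]
      ring
    have e3 : ∑ t, (x t - x (-t)) * s t ≤ 0 := Finset.sum_nonpos fun t _ => hterm t
    linarith
  -- the double sum
  set h : ZMod K → ℝ := fun t => gam * g t - c * x t with hh
  have hdouble : ∑ i, ∑ j, (h i - h j) * (u i - u j) = 2 * K * ∑ t, h t * u t := by
    have e1 : ∀ i, ∑ j, (h i - h j) * (u i - u j) =
        K * (h i * u i) - h i * ∑ j, u j - u i * ∑ j, h j + ∑ j, h j * u j := by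
      intro i
      rw [Finset.mul_sum, Finset.mul_sum]
      have : (K : ℝ) * (h i * u i) = ∑ _j : ZMod K, h i * u i := by
        rw [Finset.sum_const, Finset.card_univ, ZMod.card, nsmul_eq_mul]
      rw [this, ← Finset.sum_sub_distrib, ← Finset.sum_sub_distrib, ← Finset.sum_add_distrib]
      refine Finset.sum_congr rfl fun t _ => ?_
      ring
    rw [Finset.sum_congr rfl fun i _ => e1 i, hsu]
    simp only [mul_zero, sub_zero]
    rw [Finset.sum_add_distrib, Finset.sum_sub_distrib, ← Finset.mul_sum, ← Finset.sum_mul, hsu,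
      Finset.sum_const, Finset.card_univ, ZMod.card, nsmul_eq_mul]
    ring
  have hdel : 0 < gam * mu - c := by rw [hc]; linarith
  have hpair0 : ∀ i j : ZMod K, rho K i.val < rho K j.val →
      (gam * mu - c) * ((x i - x j) * (u i - u j)) ≤ (h i - h j) * (u i - u j) := by
    intro i j hij
    have h1 : x i ≤ x j := hpat i j hij
    have h2 : u i ≤ u j := by
      simp only [hu]
      have := cos_antitone_dist0 (ZMod.val_lt i) (ZMod.val_lt j)
        (dist0_le_of_rho_lt (ZMod.val_lt i) (ZMod.val_lt j) hij)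
      rw [← hthdef] at this
      linarith
    have h3 := deriv_mono_of_class hf h1
    have h4 : (gam * mu - c) * (x j - x i) ≤ h j - h i := by
      simp only [hh, hg]
      nlinarith
    nlinarith
  have hpair : ∀ i j : ZMod K,
      (gam * mu - c) * ((x i - x j) * (u i - u j)) ≤ (h i - h j) * (u i - u j) := by
    intro i j
    rcases lt_trichotomy (rho K i.val) (rho K j.val) with h1 | h1 | h1
    · exact hpair0 i j h1
    · have : i = j := ZMod.val_injective K (rho_inj (ZMod.val_lt i) (ZMod.val_lt j) h1)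
      simp [this]
    · have := hpair0 j i h1
      nlinarith
  have hpos : ∀ i j : ZMod K, 0 ≤ (x i - x j) * (u i - u j) := by
    have key : ∀ i j : ZMod K, rho K i.val < rho K j.val → 0 ≤ (x i - x j) * (u i - u j) := by
      intro i j hij
      have h1 : x i ≤ x j := hpat i j hij
      have h2 : u i ≤ u j := by
        simp only [hu]
        have := cos_antitone_dist0 (ZMod.val_lt i) (ZMod.val_lt j)
          (dist0_le_of_rho_lt (ZMod.val_lt i) (ZMod.val_lt j) hij)
        rw [← hthdef] at this
        linarith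
      nlinarith
    intro i j
    rcases lt_trichotomy (rho K i.val) (rho K j.val) with h1 | h1 | h1
    · exact key i j h1
    · have : i = j := ZMod.val_injective K (rho_inj (ZMod.val_lt i) (ZMod.val_lt j) h1)
      simp [this]
    · have := key j i h1
      linarith
  -- a strictly positive term
  obtain ⟨a, ha⟩ : ∃ a, x 0 < x a := by
    by_contra hcon
    push Not at hcon
    have hall : ∀ a, x a = x 0 := by
      intro a
      by_cases h0 : a = 0
      · rw [h0]
      · apply le_antisymm (hcon a)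
        apply hpat
        have hv : a.val ≠ 0 := fun h' => h0 ((ZMod.val_eq_zero a).1 h')
        have haK := ZMod.val_lt a
        rw [ZMod.val_zero]
        unfold rho
        split_ifs <;> omega
    obtain ⟨i, j, hij⟩ := hx.1
    exact hij (by rw [hall i, hall j])
  have ha0 : a ≠ 0 := by
    rintro rfl
    exact lt_irrefl _ ha
  have hua : u 0 < u a := by
    simp only [hu, ZMod.val_zero, Nat.cast_zero, mul_zero, Real.cos_zero]
    have hv : a.val ≠ 0 := fun h' => ha0 ((ZMod.val_eq_zero a).1 h')
    have haK := ZMod.val_lt a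
    have h1 : cos (th * (a.val : ℝ)) < 1 := by
      rw [hthdef, cos_dist0 haK]
      have hd1 : 1 ≤ dist0 K a.val := by unfold dist0; omega
      have hd2 : 2 * dist0 K a.val ≤ K := by unfold dist0; omega
      have h2 : (1 : ℝ) ≤ dist0 K a.val := by exact_mod_cast hd1
      have h3 : (2 : ℝ) * dist0 K a.val ≤ K := by exact_mod_cast hd2
      have h4 : 2 * π / K * (dist0 K a.val : ℝ) ≤ π := by
        rw [div_mul_eq_mul_div, div_le_iff₀ hK0]
        nlinarith [Real.pi_pos]
      have h5 : 0 < 2 * π / K * (dist0 K a.val : ℝ) := by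
        apply mul_pos hthpos
        linarith
      have := Real.cos_lt_cos_of_nonneg_of_le_pi (le_refl (0 : ℝ)) h4 h5
      simpa using this
    linarith
  have hterm_pos : 0 < (gam * mu - c) * ((x a - x 0) * (u a - u 0)) :=
    mul_pos hdel (mul_pos (by linarith) (by linarith))
  have hsum_pos : 0 < ∑ i, ∑ j, (h i - h j) * (u i - u j) := by
    have hnn : ∀ i j : ZMod K, 0 ≤ (h i - h j) * (u i - u j) := fun i j =>
      le_trans (mul_nonneg hdel.le (hpos i j)) (hpair i j)
    apply Finset.sum_pos' (fun i _ => Finset.sum_nonneg fun j _ => hnn i j)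
    refine ⟨a, Finset.mem_univ a, ?_⟩
    apply Finset.sum_pos' (fun j _ => hnn a j)
    exact ⟨0, Finset.mem_univ 0, lt_of_lt_of_le hterm_pos (hpair a 0)⟩
  rw [hdouble] at hsum_pos
  have hfin : 0 < ∑ t, h t * u t := by
    by_contra hneg
    push Not at hneg
    have : 2 * (K : ℝ) * ∑ t, h t * u t ≤ 0 :=
      mul_nonpos_of_nonneg_of_nonpos (by positivity) hneg
    linarith
  have hle : (1 - bet) * sin th * ∑ t, x t * s t ≤ 0 :=
    mul_nonpos_of_nonneg_of_nonpos (mul_nonneg (by linarith) hsin) hxs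
  have : ∑ t, h t * u t = (1 - bet) * sin th * ∑ t, x t * s t := hid
  linarith

/-! ## Existence of star-shaped cycles -/

/-- A function of the class interpolating a small perturbation of a linear gradient at finitely many
distinct points. -/
lemma exists_interpolation {K : ℕ} [NeZero K] {mu L kap : ℝ} (h0 : 0 < mu) (h1 : mu < kap) (h2 : kap < L)
    (x : ZMod K → ℝ) (hx : Function.Injective x) (v : ZMod K → ℝ) :
    ∃ e0 : ℝ, 0 < e0 ∧ ∀ e : ℝ, 0 ≤ e → e ≤ e0 →
      ∃ f, InClass mu L f ∧ ∀ t, deriv f (x t) = kap * x t + e * v t := by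
  classical
  -- a Lipschitz function with prescribed values
  obtain ⟨M, hM⟩ : ∃ M : NNReal, ∀ i j : ZMod K, |v i - v j| ≤ M * |x i - x j| := by
    refine ⟨∑ i : ZMod K, ∑ j : ZMod K, Real.toNNReal (|v i - v j| / |x i - x j|), ?_⟩
    intro i j
    by_cases hij : i = j
    · simp [hij]
    · have hne : 0 < |x i - x j| := abs_pos.2 (sub_ne_zero.2 fun h => hij (hx h))
      have hle : Real.toNNReal (|v i - v j| / |x i - x j|) ≤
          ∑ i : ZMod K, ∑ j : ZMod K, Real.toNNReal (|v i - v j| / |x i - x j|) := by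
        refine le_trans ?_ (Finset.single_le_sum (f := fun i : ZMod K =>
          ∑ j : ZMod K, Real.toNNReal (|v i - v j| / |x i - x j|)) (fun _ _ => bot_le)
          (Finset.mem_univ i))
        exact Finset.single_le_sum (f := fun j : ZMod K =>
          Real.toNNReal (|v i - v j| / |x i - x j|)) (fun _ _ => bot_le) (Finset.mem_univ j)
      have hle' : |v i - v j| / |x i - x j| ≤
          ((∑ i : ZMod K, ∑ j : ZMod K, Real.toNNReal (|v i - v j| / |x i - x j|) : NNReal) : ℝ) := by
        rw [← Real.coe_toNNReal _ (div_nonneg (abs_nonneg (v i - v j)) (abs_nonneg (x i - x j)))]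
        exact_mod_cast hle
      rwa [div_le_iff₀ hne] at hle'
  obtain ⟨q, hq⟩ : ∃ q : ℝ → ℝ, ∀ t, q (x t) = v t :=
    ⟨Function.extend x v 0, fun t => hx.extend_apply v 0 t⟩
  have hqL : LipschitzOnWith M q (Set.range x) := by
    rw [lipschitzOnWith_iff_dist_le_mul]
    rintro _ ⟨i, rfl⟩ _ ⟨j, rfl⟩
    rw [hq, hq, Real.dist_eq, Real.dist_eq]
    exact hM i j
  obtain ⟨p, hp, hpq⟩ := hqL.extend_real
  have hpx : ∀ t, p (x t) = v t := fun t => by
    rw [← hq t]
    exact (hpq (Set.mem_range_self t)).symm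
  have hpL : ∀ a b : ℝ, |p a - p b| ≤ M * |a - b| := fun a b => by
    have := hp.dist_le_mul a b
    rwa [Real.dist_eq, Real.dist_eq] at this
  set d : ℝ := min (kap - mu) (L - kap) with hd
  have hdpos : 0 < d := lt_min (by linarith) (by linarith)
  have hM0 : (0 : ℝ) ≤ M := M.2
  refine ⟨d / (M + 1), by positivity, ?_⟩
  intro e he0 he
  have heM : e * M ≤ d := by
    rw [le_div_iff₀ (by positivity)] at he
    nlinarith
  have hd1 : d ≤ kap - mu := min_le_left _ _
  have hd2 : d ≤ L - kap := min_le_right _ _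
  set f : ℝ → ℝ := fun y => kap / 2 * y ^ 2 + e * ∫ z in (0 : ℝ)..y, p z with hf
  have hpc : Continuous p := hp.continuous
  have hder : ∀ y, HasDerivAt f (kap * y + e * p y) y := by
    intro y
    have e1 : HasDerivAt (fun y : ℝ => ∫ z in (0 : ℝ)..y, p z) (p y) y :=
      intervalIntegral.integral_hasDerivAt_right (hpc.intervalIntegrable _ _)
        (hpc.stronglyMeasurableAtFilter _ _) hpc.continuousAt
    have e2 : HasDerivAt (fun y : ℝ => kap / 2 * y ^ 2) (kap * y) y := by
      have h2 : HasDerivAt (fun x : ℝ => kap / 2 * x ^ 2) (kap / 2 * (2 * y ^ 1 * 1)) y := by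
        simpa using ((hasDerivAt_id y).pow 2).const_mul (kap / 2)
      convert h2 using 1
      ring
    exact e2.add (e1.const_mul e)
  have hderiv : ∀ y, deriv f y = kap * y + e * p y := fun y => (hder y).deriv
  have hinc : ∀ a b : ℝ, a ≤ b → mu * (b - a) ≤ (kap * b + e * p b) - (kap * a + e * p a) ∧
      (kap * b + e * p b) - (kap * a + e * p a) ≤ L * (b - a) := by
    intro a b hab
    have h3 := hpL a b
    rw [abs_sub_comm a b, abs_of_nonneg (by linarith : 0 ≤ b - a)] at h3
    have h4 := abs_le.1 h3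
    have h5 : e * (p a - p b) ≤ e * (M * (b - a)) := mul_le_mul_of_nonneg_left h4.2 he0
    have h5' : e * (-(M * (b - a))) ≤ e * (p a - p b) := mul_le_mul_of_nonneg_left h4.1 he0
    have h6 : e * M * (b - a) ≤ (kap - mu) * (b - a) :=
      mul_le_mul_of_nonneg_right (by linarith) (by linarith)
    have h7 : e * M * (b - a) ≤ (L - kap) * (b - a) :=
      mul_le_mul_of_nonneg_right (by linarith) (by linarith)
    constructor <;> nlinarith
  refine ⟨f, ⟨fun y => (hder y).differentiableAt, ?_, ?_⟩, fun t => by rw [hderiv, hpx]⟩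
  · rw [strongConvexOn_iff_convex]
    have hder2 : ∀ y : ℝ, HasDerivAt (fun y : ℝ => f y - mu / 2 * ‖y‖ ^ 2)
        (kap * y + e * p y - mu * y) y := by
      intro y
      have h1 : HasDerivAt (fun x : ℝ => mu / 2 * ‖x‖ ^ 2) (mu * y) y := by
        have h2 : HasDerivAt (fun x : ℝ => mu / 2 * x ^ 2) (mu / 2 * (2 * y ^ 1 * 1)) y := by
          simpa using ((hasDerivAt_id y).pow 2).const_mul (mu / 2)
        have h3 : (fun x : ℝ => mu / 2 * ‖x‖ ^ 2) = fun x : ℝ => mu / 2 * x ^ 2 := by
          funext y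
          rw [Real.norm_eq_abs, sq_abs]
        rw [h3]
        convert h2 using 1
        ring
      exact (hder y).sub h1
    apply MonotoneOn.convexOn_of_deriv convex_univ
    · exact fun y _ => (hder2 y).continuousAt.continuousWithinAt
    · exact fun y _ => (hder2 y).differentiableAt.differentiableWithinAt
    · intro a _ b _ hab
      rw [(hder2 a).deriv, (hder2 b).deriv]
      have := (hinc a b hab).1
      linarith
  · intro a b
    rw [hderiv, hderiv]
    have hLpos : 0 < L := by linarith
    rcases le_total a b with hab | hab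
    · obtain ⟨h3, h4⟩ := hinc a b hab
      rw [abs_sub_comm a b, abs_of_nonneg (by linarith : 0 ≤ b - a), abs_le]
      have h5 : 0 ≤ mu * (b - a) := mul_nonneg h0.le (by linarith)
      have h6 : 0 ≤ L * (b - a) := mul_nonneg hLpos.le (by linarith)
      constructor <;> linarith
    · obtain ⟨h3, h4⟩ := hinc b a hab
      rw [abs_of_nonneg (by linarith : 0 ≤ a - b), abs_le]
      have h5 : 0 ≤ mu * (a - b) := mul_nonneg h0.le (by linarith)
      have h6 : 0 ≤ L * (a - b) := mul_nonneg hLpos.le (by linarith)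
      constructor <;> linarith

/-- The points of a star-shaped cycle. -/
noncomputable def star (K j : ℕ) (t : ZMod K) : ℝ :=
  cos (j * (2 * π) / K * (t.val : ℝ) + π / (2 * K))

lemma star_injective {K j : ℕ} (hK : 2 ≤ K) (hj : Nat.Coprime K j) :
    Function.Injective (star K j) := by
  intro a b hab
  have : NeZero K := ⟨by omega⟩
  have hK0 : (K : ℝ) ≠ 0 := by exact_mod_cast (by omega : K ≠ 0)
  unfold star at hab
  rw [Real.cos_eq_cos_iff] at hab
  obtain ⟨k, hk | hk⟩ := hab
  · -- `j (b - a) = k K`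
    have h1 : (j : ℝ) * b.val = k * K + j * a.val := by
      field_simp at hk
      linarith
    have h3 : (j : ℤ) * b.val = k * K + j * a.val := by exact_mod_cast h1
    have h4 : (K : ℤ) ∣ (j : ℤ) * ((b.val : ℤ) - a.val) := ⟨k, by linarith⟩
    have h5 : (K : ℤ) ∣ (b.val : ℤ) - a.val :=
      IsCoprime.dvd_of_dvd_mul_left (Nat.isCoprime_iff_coprime.2 hj) h4
    have h6 : ((a.val : ℤ) : ZMod K) = ((b.val : ℤ) : ZMod K) :=
      (ZMod.intCast_eq_intCast_iff_dvd_sub _ _ _).2 h5
    simpa using h6
  · exfalso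
    have h1 : (2 : ℝ) * (j * (a.val + b.val)) + 1 = 2 * (k * K) := by
      field_simp at hk
      linarith
    have h3 : (2 : ℤ) * (j * (a.val + b.val)) + 1 = 2 * (k * K) := by exact_mod_cast h1
    omega

lemma star_recursion {K j : ℕ} (hK : 2 ≤ K) (t : ZMod K) :
    star K j (t + 1) = 2 * cos (j * (2 * π) / K) * star K j t - star K j (t - 1) := by
  have hK0 : (K : ℝ) ≠ 0 := by exact_mod_cast (by omega : K ≠ 0)
  have hth : (j : ℝ) * (2 * π) / K * K = j * (2 * π) := by field_simp
  unfold star
  rw [cos_succ hK hth, cos_pred hK hth, cos_add, cos_sub]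
  ring

/-- The main construction, for a star-shaped cycle with turning number `j`. -/
lemma main {mu L : ℝ} (hmu : 0 < mu) (hL : mu < L) {K j : ℕ} (hj2 : 2 ≤ j) (hjK : 2 * j < K)
    (hcop : Nat.Coprime K j) :
    ∃ gam b0 : ℝ, 0 < gam ∧ 0 ≤ b0 ∧ b0 < 1 ∧ ∀ bet : ℝ, b0 < bet → bet ≤ 1 →
      (L * sin (π * j / K) ^ 2 < mu → gam * L < 2 * (1 + bet)) ∧
      (∃ (f : ℝ → ℝ) (x : ZMod K → ℝ),
        InClass mu L f ∧ IsCycle K gam bet f x ∧ Function.Injective x) ∧
      ∀ (f : ℝ → ℝ) (x : ZMod K → ℝ), InClass mu L f → IsCycle K gam bet f x →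
        ¬ HasPattern K x := by
  have : NeZero K := ⟨by omega⟩
  have hK0 : (0 : ℝ) < K := by exact_mod_cast (by omega : 0 < K)
  have hj2' : (2 : ℝ) ≤ j := by exact_mod_cast hj2
  have hjK' : 2 * (j : ℝ) ≤ K := by exact_mod_cast hjK.le
  set al : ℝ := 2 * π / K with hal
  set th : ℝ := j * (2 * π) / K with hthdef
  have halpos : 0 < al := by positivity
  have hthal : th = j * al := by rw [hthdef, hal]; ring
  have hthpi : th ≤ π := by
    rw [hthdef, div_le_iff₀ hK0]
    nlinarith [Real.pi_pos]
  have halth : al < th := by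
    rw [hthal]
    nlinarith
  have hC1 : 0 < 1 - cos al := by
    have := Real.cos_lt_cos_of_nonneg_of_le_pi (le_refl (0 : ℝ)) (by linarith : al ≤ π) halpos
    rw [Real.cos_zero] at this
    linarith
  have hCj : 1 - cos al < 1 - cos th := by
    have := Real.cos_lt_cos_of_nonneg_of_le_pi halpos.le hthpi halth
    linarith
  set C1 : ℝ := 1 - cos al with hC1def
  set Cj : ℝ := 1 - cos th with hCjdef
  have hCjpos : 0 < Cj := by linarith
  have hlow : mu < mu * Cj / C1 := by
    rw [lt_div_iff₀ hC1]
    exact mul_lt_mul_of_pos_left hCj hmu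
  obtain ⟨kap, hk1, hk2⟩ : ∃ kap, mu < kap ∧ kap < min L (mu * Cj / C1) :=
    exists_between (lt_min hL hlow)
  have hk3 : kap < L := lt_of_lt_of_le hk2 (min_le_left _ _)
  have hk4 : kap * C1 < mu * Cj := by
    have := lt_of_lt_of_le hk2 (min_le_right _ _)
    rwa [lt_div_iff₀ hC1] at this
  have hkpos : 0 < kap := by linarith
  set gam : ℝ := 2 * Cj / kap with hgam
  have hgampos : 0 < gam := by positivity
  have hgk : gam * kap = 2 * Cj := by
    rw [hgam]
    field_simp
  have hgmu : 2 * C1 < gam * mu := by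
    rw [hgam, div_mul_eq_mul_div, lt_div_iff₀ hkpos]
    nlinarith
  obtain ⟨e0, he0, hint⟩ := exists_interpolation hmu hk1 hk3 (star K j)
    (star_injective (by omega) hcop) (fun t => (star K j (t - 1) - star K j t) / gam)
  set c2 : ℝ := if gam * L < 4 then gam * L / 2 - 1 else 0 with hc2
  have hc2lt : c2 < 1 := by
    rw [hc2]
    split_ifs <;> linarith
  refine ⟨gam, max 0 (max (1 - e0) c2), hgampos, le_max_left _ _, ?_, ?_⟩
  · exact max_lt one_pos (max_lt (by linarith) hc2lt)
  · intro bet hb1 hb2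
    have hb0 : 0 < bet := lt_of_le_of_lt (le_max_left _ _) hb1
    have hb3 : 1 - e0 < bet :=
      lt_of_le_of_lt (le_trans (le_max_left _ _) (le_max_right _ _)) hb1
    have hb4 : c2 < bet :=
      lt_of_le_of_lt (le_trans (le_max_right _ _) (le_max_right _ _)) hb1
    refine ⟨?_, ?_, ?_⟩
    · intro hst
      have hsq : Cj = 2 * sin (π * j / K) ^ 2 := by
        have h1 : th = 2 * (π * j / K) := by rw [hthdef]; ring
        rw [hCjdef, h1, Real.cos_two_mul, Real.sin_sq]
        ring
      have h4 : gam * L < 4 := by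
        rw [hgam, div_mul_eq_mul_div, div_lt_iff₀ hkpos, hsq]
        nlinarith
      rw [hc2, if_pos h4] at hb4
      linarith
    · obtain ⟨f, hf, hfd⟩ := hint (1 - bet) (by linarith) (by linarith)
      refine ⟨f, star K j, hf, ⟨?_, ?_⟩, star_injective (by omega) hcop⟩
      · refine ⟨0, 1, fun h => ?_⟩
        have h1 := star_injective (by omega) hcop h
        have h2 : (0 : ZMod K).val = (1 : ZMod K).val := by rw [← h1]
        rw [ZMod.val_zero, ZMod.val_one'' (by omega)] at h2
        omega
      · intro i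
        rw [hfd, star_recursion (by omega), ← hthdef]
        have h1 : gam * (kap * star K j i + (1 - bet) * ((star K j (i - 1) - star K j i) / gam)) =
            (gam * kap) * star K j i + (1 - bet) * (star K j (i - 1) - star K j i) := by
          field_simp
        rw [h1, hgk, hCjdef]
        ring
    · intro f x hf hx
      apply no_pattern (by omega) hgampos hb2 ?_ hf hx
      rw [← hal, ← hC1def]
      nlinarith

lemma coprime_aux1 (n : ℕ) : Nat.Coprime (4 * n + 4) (2 * n + 1) := by
  apply Nat.isCoprime_iff_coprime.1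
  refine ⟨-n, 2 * n + 1, ?_⟩
  push_cast
  ring

lemma coprime_aux2 (n : ℕ) : Nat.Coprime (4 * n + 6) (2 * n + 1) := by
  apply Nat.isCoprime_iff_coprime.1
  refine ⟨-(n ^ 2 + n), 2 * n + 1 + 2 * (n ^ 2 + n), ?_⟩
  push_cast
  ring

/-- **Disproof of Q1, for every `0 < mu < L` and every `K ≥ 5`, `K ≠ 6`.** There are `gam > 0` and
`0 ≤ b0 < 1` such that for every `bet` with `b0 < bet ≤ 1` the heavy-ball method with parameters
`gam, bet` has a `K`-cycle, consisting of `K` distinct points, on some `f` in `F_{mu,L}`, while no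
`K`-cycle on any `f` in `F_{mu,L}` has pattern `rho`. If moreover `K` is odd and
`L sin(2 pi / K)^2 < mu` (true for all large `K`), then `gam * L < 2 * (1 + bet)`, so that the
method with these parameters converges on every quadratic function of the class. -/
theorem result (mu L : ℝ) (hmu : 0 < mu) (hL : mu < L) (K : ℕ) (hK : 5 ≤ K) (hK6 : K ≠ 6) :
    ∃ gam b0 : ℝ, 0 < gam ∧ 0 ≤ b0 ∧ b0 < 1 ∧ ∀ bet : ℝ, b0 < bet → bet ≤ 1 →
      (Odd K → L * sin (2 * π / K) ^ 2 < mu → gam * L < 2 * (1 + bet)) ∧
      (∃ (f : ℝ → ℝ) (x : ZMod K → ℝ),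
        InClass mu L f ∧ IsCycle K gam bet f x ∧ Function.Injective x) ∧
      ∀ (f : ℝ → ℝ) (x : ZMod K → ℝ), InClass mu L f → IsCycle K gam bet f x →
        ¬ HasPattern K x := by
  rcases Nat.even_or_odd K with he | ho
  · obtain ⟨n, hn⟩ : ∃ n, K = 4 * n + 4 ∨ K = 4 * n + 6 := by
      obtain ⟨m, hm⟩ := he
      exact ⟨(K - 4) / 4, by omega⟩
    have hcop : Nat.Coprime K (2 * n + 1) := by
      rcases hn with hn | hn
      · rw [hn]; exact coprime_aux1 n
      · rw [hn]; exact coprime_aux2 n
    obtain ⟨gam, b0, h1, h2, h3, h4⟩ := main hmu hL (K := K) (j := 2 * n + 1) (by omega) (by omega)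
      hcop
    refine ⟨gam, b0, h1, h2, h3, fun bet hb1 hb2 => ⟨?_, (h4 bet hb1 hb2).2⟩⟩
    intro ho
    exact absurd he (Nat.not_even_iff_odd.2 ho)
  · have hcop : Nat.Coprime K 2 := Nat.coprime_two_right.2 ho
    obtain ⟨gam, b0, h1, h2, h3, h4⟩ := main hmu hL (K := K) (j := 2) le_rfl (by omega) hcop
    refine ⟨gam, b0, h1, h2, h3, fun bet hb1 hb2 => ⟨?_, (h4 bet hb1 hb2).2⟩⟩
    intro _ hst
    apply (h4 bet hb1 hb2).1
    have : π * ((2 : ℕ) : ℝ) / K = 2 * π / K := by push_cast; ring
    rw [this]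
    exact hst

end Pool.Agent.Results.MP_8c4df5_an.StarCycles
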